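import Mathlib
import Pool.Agent.Helper21.FL.Defs

/-! MP_924d78_nt, piece FL-4: tame extensions and composita. -/

set_option autoImplicit false

open NumberField IsLocalRing

namespace Pool.Agent.Helper21.FL

/-- multiplicities in Dedekind domains are ramification indices -/
theorem ramificationIdx_of_pow {K F : Type} [Field K] [NumberField K] [Field F] [NumberField F]
    [Algebra K F] (P : Ideal (𝓞 F)) (hP : P.IsMaximal) (q : Ideal (𝓞 K))
    (hq : q = P.comap (algebraMap (𝓞 K) (𝓞 F))) (e : ℕ)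
    (h1 : q.map (algebraMap (𝓞 K) (𝓞 F)) ≤ P ^ e)
    (h2 : ¬ (q.map (algebraMap (𝓞 K) (𝓞 F)) ≤ P ^ (e + 1))) :
    e = P.ramificationIdx (𝓞 K) := by
  have : P.LiesOver q := ⟨hq⟩
  have hqm : q.map (algebraMap (𝓞 K) (𝓞 F)) ≠ ⊥ := by
    intro h
    apply h2
    rw [h]
    exact bot_le
  rw [← Ideal.ramificationIdx'_eq_ramificationIdx' q P hqm]
  exact (Ideal.ramificationIdx'_spec h1 h2).symm

theorem prime_ne_bot {F : Type} [Field F] [NumberField F] (P : Ideal (𝓞 F)) (hP : P.IsMaximal) :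
    P ≠ ⊥ :=
  Ring.ne_bot_of_isMaximal_of_not_isField hP (RingOfIntegers.not_isField F)

theorem comap_ne_bot {K F : Type} [Field K] [NumberField K] [Field F] [NumberField F]
    [Algebra K F] (P : Ideal (𝓞 F)) (hP : P.IsMaximal) :
    P.comap (algebraMap (𝓞 K) (𝓞 F)) ≠ ⊥ := by
  have : (P.comap (algebraMap (𝓞 K) (𝓞 F))).IsMaximal :=
    Ideal.isMaximal_comap_of_isIntegral_of_isMaximal P
  exact prime_ne_bot _ this

theorem exists_pow {K F : Type} [Field K] [NumberField K] [Field F] [NumberField F]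
    [Algebra K F] (P : Ideal (𝓞 F)) (hP : P.IsMaximal) (q : Ideal (𝓞 K))
    (hq : q = P.comap (algebraMap (𝓞 K) (𝓞 F))) :
    q.map (algebraMap (𝓞 K) (𝓞 F)) ≤ P ^ (P.ramificationIdx (𝓞 K)) ∧
      ¬ (q.map (algebraMap (𝓞 K) (𝓞 F)) ≤ P ^ (P.ramificationIdx (𝓞 K) + 1)) := by
  have : P.LiesOver q := ⟨hq⟩
  have hq0 : q ≠ ⊥ := by rw [hq]; exact comap_ne_bot P hP
  have hqm : q.map (algebraMap (𝓞 K) (𝓞 F)) ≠ ⊥ := Ideal.map_ne_bot_of_ne_bot hq0
  have hprime : Prime P := Ideal.prime_of_isPrime (prime_ne_bot P hP) hP.isPrime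
  have hfin : FiniteMultiplicity P (q.map (algebraMap (𝓞 K) (𝓞 F))) :=
    FiniteMultiplicity.of_prime_left hprime hqm
  obtain ⟨e, he1, he2⟩ : ∃ e, q.map (algebraMap (𝓞 K) (𝓞 F)) ≤ P ^ e ∧
      ¬ (q.map (algebraMap (𝓞 K) (𝓞 F)) ≤ P ^ (e + 1)) := by
    refine ⟨multiplicity P (q.map (algebraMap (𝓞 K) (𝓞 F))), ?_, ?_⟩
    · exact Ideal.le_of_dvd (pow_multiplicity_dvd _ _)
    · intro h
      exact hfin.not_pow_dvd_of_multiplicity_lt (Nat.lt_succ_self _) (Ideal.dvd_iff_le.2 h)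
  have := ramificationIdx_of_pow P hP q hq e he1 he2
  rw [← this]
  exact ⟨he1, he2⟩

theorem tameExt_iff {K F : Type} [Field K] [NumberField K] [Field F] [NumberField F]
    [Algebra K F] (S : Set (Ideal (𝓞 K))) :
    TameExt K S F ↔ ∀ (P : Ideal (𝓞 F)), P.IsMaximal →
      ∀ (q : Ideal (𝓞 K)), q = P.comap (algebraMap (𝓞 K) (𝓞 F)) →
      (q ∉ S → P.ramificationIdx (𝓞 K) = 1) ∧
        (q ∈ S → ¬ (ringChar (𝓞 K ⧸ q) ∣ P.ramificationIdx (𝓞 K))) := by
  constructor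
  · intro h P hP q hq
    exact h P hP q hq _ (exists_pow P hP q hq).1 (exists_pow P hP q hq).2
  · intro h P hP q hq e h1 h2
    rw [ramificationIdx_of_pow P hP q hq e h1 h2]
    exact h P hP q hq

theorem TameExt.of_algHom {K F M : Type} [Field K] [NumberField K] [Field F] [NumberField F]
    [Algebra K F] [Field M] [NumberField M] [Algebra K M] {S : Set (Ideal (𝓞 K))}
    (j : F →ₐ[K] M) (h : TameExt K S M) : TameExt K S F := by
  let : Algebra F M := j.toRingHom.toAlgebra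
  have : IsScalarTower K F M := IsScalarTower.of_algebraMap_eq fun x => (j.commutes x).symm
  rw [tameExt_iff] at h ⊢
  intro P hP q hq
  obtain ⟨P', hP', hPP'⟩ := Ideal.exists_ideal_over_maximal_of_isIntegral (S := 𝓞 M) P (by
    rw [(RingHom.injective_iff_ker_eq_bot _).1 (FaithfulSMul.algebraMap_injective (𝓞 F) (𝓞 M))]
    exact bot_le)
  have : P'.LiesOver P := ⟨hPP'.symm⟩
  have hdvd : P.ramificationIdx (𝓞 K) ∣ P'.ramificationIdx (𝓞 K) :=
    Ideal.ramificationIdx_below_dvd P P'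
  have hq' : q = P'.comap (algebraMap (𝓞 K) (𝓞 M)) := by
    rw [hq, ← hPP', Ideal.comap_comap, ← IsScalarTower.algebraMap_eq]
  have := h P' hP' q hq'
  constructor
  · intro hqS
    rw [this.1 hqS] at hdvd
    exact Nat.dvd_one.1 hdvd
  · intro hqS hd
    exact this.2 hqS (hd.trans hdvd)

/-- the ramification index is the order of the inertia group -/
theorem card_inertia {K F : Type} [Field K] [NumberField K] [Field F] [NumberField F]
    [Algebra K F] [IsGalois K F] (P : Ideal (𝓞 F)) (hP : P.IsMaximal) :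
    Nat.card (P.inertia (F ≃ₐ[K] F)) = P.ramificationIdx (𝓞 K) := by
  have := hP
  obtain ⟨q, hq⟩ : ∃ q, q = P.comap (algebraMap (𝓞 K) (𝓞 F)) := ⟨_, rfl⟩
  have : P.LiesOver q := ⟨hq⟩
  have : q.IsMaximal := by
    rw [hq]; exact Ideal.isMaximal_comap_of_isIntegral_of_isMaximal P
  rw [Ideal.card_inertia_eq_ramificationIdxIn q P,
    Ideal.ramificationIdxIn_eq_ramificationIdx q P (F ≃ₐ[K] F)]

/-- restriction of the inertia group -/
theorem restrict_mem_inertia {K F M : Type} [Field K] [NumberField K] [Field F] [NumberField F]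
    [Algebra K F] [Field M] [NumberField M] [Algebra K M] [Algebra F M] [IsScalarTower K F M]
    [IsGalois K F] (P : Ideal (𝓞 M)) (σ : M ≃ₐ[K] M) (hσ : σ ∈ P.inertia (M ≃ₐ[K] M)) :
    AlgEquiv.restrictNormalHom F σ ∈
      (P.comap (algebraMap (𝓞 F) (𝓞 M))).inertia (F ≃ₐ[K] F) := by
  intro x
  have := hσ (algebraMap (𝓞 F) (𝓞 M) x)
  change algebraMap (𝓞 F) (𝓞 M) (AlgEquiv.restrictNormalHom F σ • x - x) ∈ P
  have hx : algebraMap (𝓞 F) (𝓞 M) (AlgEquiv.restrictNormalHom F σ • x) =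
      σ • algebraMap (𝓞 F) (𝓞 M) x := by
    apply RingOfIntegers.ext
    change algebraMap F M (AlgEquiv.restrictNormalHom F σ x) = σ (algebraMap F M x)
    exact AlgEquiv.restrictNormal_commutes σ F x
  rw [map_sub, hx]
  exact this

theorem ringChar_prime {K : Type} [Field K] [NumberField K] (q : Ideal (𝓞 K)) (hq : q.IsMaximal) :
    (ringChar (𝓞 K ⧸ q)).Prime := by
  have : Finite (𝓞 K ⧸ q) := Ideal.finiteQuotientOfFreeOfNeBot q (prime_ne_bot q hq)
  exact CharP.char_prime_of_ne_zero (𝓞 K ⧸ q) (CharP.ringChar_ne_zero_of_finite _)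

theorem TameExt.sup_aux {K F₁ F₂ M : Type} [Field K] [NumberField K] [Field F₁] [NumberField F₁]
    [Algebra K F₁] [Field F₂] [NumberField F₂] [Algebra K F₂] [Field M] [NumberField M]
    [Algebra K M] [Algebra F₁ M] [IsScalarTower K F₁ M] [Algebra F₂ M] [IsScalarTower K F₂ M]
    [IsGalois K F₁] [IsGalois K F₂] [IsGalois K M] {S : Set (Ideal (𝓞 K))}
    (hgen : ∀ σ : M ≃ₐ[K] M, AlgEquiv.restrictNormalHom F₁ σ = 1 →
      AlgEquiv.restrictNormalHom F₂ σ = 1 → σ = 1)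
    (h₁ : TameExt K S F₁) (h₂ : TameExt K S F₂) : TameExt K S M := by
  rw [tameExt_iff] at h₁ h₂ ⊢
  intro P hP q hq
  obtain ⟨P₁, hP₁⟩ : ∃ P₁, P₁ = P.comap (algebraMap (𝓞 F₁) (𝓞 M)) := ⟨_, rfl⟩
  obtain ⟨P₂, hP₂⟩ : ∃ P₂, P₂ = P.comap (algebraMap (𝓞 F₂) (𝓞 M)) := ⟨_, rfl⟩
  have hm₁ : P₁.IsMaximal := by
    rw [hP₁]; exact Ideal.isMaximal_comap_of_isIntegral_of_isMaximal P
  have hm₂ : P₂.IsMaximal := by
    rw [hP₂]; exact Ideal.isMaximal_comap_of_isIntegral_of_isMaximal P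
  have hqm : q.IsMaximal := by
    rw [hq]; exact Ideal.isMaximal_comap_of_isIntegral_of_isMaximal P
  have hq₁ : q = P₁.comap (algebraMap (𝓞 K) (𝓞 F₁)) := by
    rw [hq, hP₁, Ideal.comap_comap, ← IsScalarTower.algebraMap_eq]
  have hq₂ : q = P₂.comap (algebraMap (𝓞 K) (𝓞 F₂)) := by
    rw [hq, hP₂, Ideal.comap_comap, ← IsScalarTower.algebraMap_eq]
  have hdvd : P.ramificationIdx (𝓞 K) ∣ P₁.ramificationIdx (𝓞 K) * P₂.ramificationIdx (𝓞 K) := by
    rw [← card_inertia P hP, ← card_inertia P₁ hm₁, ← card_inertia P₂ hm₂, ← Nat.card_prod]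
    let f : P.inertia (M ≃ₐ[K] M) →*
        (P₁.inertia (F₁ ≃ₐ[K] F₁)) × (P₂.inertia (F₂ ≃ₐ[K] F₂)) :=
      { toFun := fun σ => (⟨AlgEquiv.restrictNormalHom F₁ σ.1, by
            rw [hP₁]; exact restrict_mem_inertia P σ.1 σ.2⟩,
          ⟨AlgEquiv.restrictNormalHom F₂ σ.1, by
            rw [hP₂]; exact restrict_mem_inertia P σ.1 σ.2⟩)
        map_one' := by
          ext1
          · apply Subtype.ext
            simp
          · apply Subtype.ext
            simp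
        map_mul' := by
          intro a b
          ext1
          · apply Subtype.ext
            simp
          · apply Subtype.ext
            simp }
    refine Subgroup.card_dvd_of_injective f ?_
    rw [injective_iff_map_eq_one]
    intro σ hσ
    apply Subtype.ext
    apply hgen
    · exact congrArg (fun x => x.1.1) hσ
    · exact congrArg (fun x => x.2.1) hσ
  constructor
  · intro hqS
    rw [(h₁ P₁ hm₁ q hq₁).1 hqS, (h₂ P₂ hm₂ q hq₂).1 hqS] at hdvd
    exact Nat.dvd_one.1 hdvd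
  · intro hqS hd
    rcases (ringChar_prime q hqm).dvd_mul.1 (hd.trans hdvd) with h | h
    · exact (h₁ P₁ hm₁ q hq₁).2 hqS h
    · exact (h₂ P₂ hm₂ q hq₂).2 hqS h

theorem TameExt.sup {K : Type} [Field K] [NumberField K] {S : Set (Ideal (𝓞 K))}
    (E₁ E₂ : IntermediateField K (AlgebraicClosure K)) [FiniteDimensional K E₁]
    [FiniteDimensional K E₂] [IsGalois K E₁] [IsGalois K E₂]
    (h₁ : TameExt K S E₁) (h₂ : TameExt K S E₂) : TameExt K S ↥(E₁ ⊔ E₂) := by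
  have : NumberField E₁ := NumberField.of_module_finite K E₁
  have : NumberField E₂ := NumberField.of_module_finite K E₂
  have : NumberField ↥(E₁ ⊔ E₂) := NumberField.of_module_finite K _
  let : Algebra E₁ ↥(E₁ ⊔ E₂) := (IntermediateField.inclusion le_sup_left).toRingHom.toAlgebra
  let : Algebra E₂ ↥(E₁ ⊔ E₂) := (IntermediateField.inclusion le_sup_right).toRingHom.toAlgebra
  have : IsScalarTower K E₁ ↥(E₁ ⊔ E₂) := IsScalarTower.of_algebraMap_eq fun x => rfl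
  have : IsScalarTower K E₂ ↥(E₁ ⊔ E₂) := IsScalarTower.of_algebraMap_eq fun x => rfl
  have : IsGalois K ↥(E₁ ⊔ E₂) := inferInstance
  refine TameExt.sup_aux (F₁ := E₁) (F₂ := E₂) ?_ h₁ h₂
  intro σ hσ₁ hσ₂
  have hr₁ : ∀ x : E₁, σ (algebraMap E₁ ↥(E₁ ⊔ E₂) x) = algebraMap E₁ ↥(E₁ ⊔ E₂) x := by
    intro x
    rw [← AlgEquiv.restrictNormal_commutes σ E₁ x]
    have : AlgEquiv.restrictNormal σ E₁ = 1 := hσ₁
    rw [this]
    rfl
  have hr₂ : ∀ x : E₂, σ (algebraMap E₂ ↥(E₁ ⊔ E₂) x) = algebraMap E₂ ↥(E₁ ⊔ E₂) x := by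
    intro x
    rw [← AlgEquiv.restrictNormal_commutes σ E₂ x]
    have : AlgEquiv.restrictNormal σ E₂ = 1 := hσ₂
    rw [this]
    rfl
  -- the fixed field of `σ`, mapped to the algebraic closure, contains `E₁` and `E₂`
  obtain ⟨L, hL⟩ : ∃ L : IntermediateField K ↥(E₁ ⊔ E₂),
      L = IntermediateField.fixedField (Subgroup.zpowers σ) := ⟨_, rfl⟩
  have hfix : ∀ x : ↥(E₁ ⊔ E₂), σ x = x → x ∈ L := by
    intro x hx
    rw [hL, IntermediateField.mem_fixedField_iff]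
    intro f hf
    have hle : Subgroup.zpowers σ ≤ MulAction.stabilizer (↥(E₁ ⊔ E₂) ≃ₐ[K] ↥(E₁ ⊔ E₂)) x := by
      rw [Subgroup.zpowers_le]
      exact hx
    exact hle hf
  have hle : E₁ ⊔ E₂ ≤ L.map (E₁ ⊔ E₂).val := by
    rw [sup_le_iff]
    constructor
    · intro x hx
      refine ⟨⟨x, (le_sup_left : E₁ ≤ E₁ ⊔ E₂) hx⟩, hfix _ (hr₁ ⟨x, hx⟩), rfl⟩
    · intro x hx
      refine ⟨⟨x, (le_sup_right : E₂ ≤ E₁ ⊔ E₂) hx⟩, hfix _ (hr₂ ⟨x, hx⟩), rfl⟩
  ext x
  obtain ⟨y, hy, hyx⟩ := hle x.2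
  have hxy : y = x := Subtype.ext hyx
  rw [← hxy]
  have hy' : y ∈ IntermediateField.fixedField (Subgroup.zpowers σ) := by rw [← hL]; exact hy
  rw [IntermediateField.mem_fixedField_iff] at hy'
  have := hy' σ (Subgroup.mem_zpowers σ)
  rw [this]
  rfl

end Pool.Agent.Helper21.FL
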