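import Mathlib
import Pool.Agent.Helper95.FL.StmtsG

set_option autoImplicit false

/-!
# Project FL, piece G-5
-/

namespace Pool.Agent.Helper66.FL

open Pool.Agent.Helper95.FL Pool.Agent.Helper95.FL.FD

lemma sum3' {M : Type} [AddCommMonoid M] (f : Fin 3 → M) {a b l : Fin 3} (hab : a ≠ b)
    (hal : a ≠ l) (hbl : b ≠ l) : ∑ x, f x = f a + f b + f l := by
  have h : (Finset.univ : Finset (Fin 3)) = {a, b, l} := by revert a b l; decide
  rw [h, Finset.sum_insert (by simp [hab, hal]), Finset.sum_insert (by simp [hbl]),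
    Finset.sum_singleton, add_assoc]

variable {K : Type} [Field K] {m : ℕ} (F : FD K m)

lemma A_self' (ε : Fin 3 → Bool) (i : Fin 3) : F.A ε i i = 1 := by simp [FD.A]

lemma A_third' (ε : Fin 3 → Bool) {i j t : Fin 3} (hij : i ≠ j) (hi : i ≠ t) (hj : j ≠ t) :
    F.A ε i j = if ε t then F.τ F.θ else F.θ := by
  simp [FD.A, hij, third_eq hij hi hj]

lemma triple' (P A Q : Mat3 K) {a b l : Fin 3} (hab : a ≠ b) (hal : a ≠ l) (hbl : b ≠ l)
    (i j : Fin 3) : (P * A * Q) i j =
      P i a * (A a a * Q a j + A a b * Q b j + A a l * Q l j) +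
      P i b * (A b a * Q a j + A b b * Q b j + A b l * Q l j) +
      P i l * (A l a * Q a j + A l b * Q b j + A l l * Q l j) := by
  rw [Matrix.mul_assoc, Matrix.mul_apply, sum3' _ hab hal hbl]
  simp only [Matrix.mul_apply, sum3' _ hab hal hbl]

theorem stL5 (hZ : StZ) (hT : StT) : StL5 := by
  intro K _ m F a b l hab hal hbl x hx y hy z hz x' hx' y' hy' he
  obtain ⟨D, hD⟩ := hx
  obtain ⟨B, hB⟩ := hy
  obtain ⟨C, hC⟩ := hz
  obtain ⟨C', hC'⟩ := hx'
  obtain ⟨B', hB'⟩ := hy'
  have hne : F.τ F.θ - F.θ ≠ 0 := sub_ne_zero.2 F.τ_θ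
  -- the entry (l, b)
  have elb : ∀ ε : Fin 3 → Bool, ε a = false →
      B l b = B' l b + (if ε b then F.τ (C' l a) else C' l a) *
        ((if ε l then F.τ F.θ else F.θ) * B' b b + (if ε b then F.τ F.θ else F.θ) * B' l b) +
        (if ε b then F.τ (C' l l) else C' l l) * (F.θ * B' b b + B' l b) := by
    intro ε ha
    have h1 : mat (x * y * z) ε l b = mat (x' * y') ε l b := by rw [he]
    have hxl : ∀ q, mat x ε l q = 0 := by
      intro q; rw [hD.2.1]; by_cases h : ε l = true <;> simp [h, FD.tm, (hD.1 q).2]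
    have hzb : ∀ q, mat z ε q b = 0 := by
      intro q; rw [hC.2.1]; by_cases h : ε b = true <;> simp [h, FD.tm, (hC.1 q).1]
    have hyy : mat y ε = B := by rw [hB.2.1]; simp [ha]
    have hyy' : mat y' ε = B' := by rw [hB'.2.1]; simp [ha]
    rw [mat_mul, mat_mul, mat_mul] at h1
    simp only [Matrix.add_apply, triple' _ _ _ hab hal hbl, hxl, hzb, hyy, hyy', mul_zero,
      zero_mul, add_zero, zero_add] at h1
    rw [h1, A_third' F ε hab hal hbl, A_third' F ε hal hab hbl.symm,
      A_third' F ε hbl.symm hal.symm hab.symm, A_self', hC'.2.1, (hB'.1 b).2]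
    by_cases h2 : ε b = true <;> by_cases h3 : ε l = true <;>
      simp [h2, h3, ha, FD.tm, (hC'.1 l).1, A_self'] <;> ring
  -- the entry (b, b)
  have ebb : ∀ ε : Fin 3 → Bool, ε a = false →
      B' b b = (if ε l then F.τ (D b b) else D b b) + B b b +
        (if ε l then F.τ (D b a) else D b a) *
        ((if ε l then F.τ F.θ else F.θ) * B b b + (if ε b then F.τ F.θ else F.θ) * B l b) +
        (if ε l then F.τ (D b b) else D b b) * (B b b + F.θ * B l b) := by
    intro ε ha
    have h1 : mat (x * y * z) ε b b = mat (x' * y') ε b b := by rw [he]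
    have hxl : ∀ q, mat x' ε b q = 0 := by
      intro q; rw [hC'.2.1]; by_cases h : ε b = true <;> simp [h, FD.tm, (hC'.1 q).2]
    have hzb : ∀ q, mat z ε q b = 0 := by
      intro q; rw [hC.2.1]; by_cases h : ε b = true <;> simp [h, FD.tm, (hC.1 q).1]
    have hyy : mat y ε = B := by rw [hB.2.1]; simp [ha]
    have hyy' : mat y' ε = B' := by rw [hB'.2.1]; simp [ha]
    rw [mat_mul, mat_mul, mat_mul] at h1
    simp only [Matrix.add_apply, triple' _ _ _ hab hal hbl, hxl, hzb, hyy, hyy', mul_zero,
      zero_mul, add_zero, zero_add] at h1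
    rw [← h1, A_third' F ε hab hal hbl, A_third' F ε hal hab hbl.symm,
      A_third' F ε hbl hab.symm hal.symm, A_self', hD.2.1, (hB.1 b).2]
    by_cases h2 : ε b = true <;> by_cases h3 : ε l = true <;>
      simp [h2, h3, ha, FD.tm, (hD.1 b).1, A_self'] <;> ring
  have elb0 := elb (fun _ => false) rfl
  have elbl := elb (fun i => decide (i = l)) (by simp [hal])
  have elbb := elb (fun i => decide (i = b)) (by simp [hab])
  have ebb0 := ebb (fun _ => false) rfl
  have ebbl := ebb (fun i => decide (i = l)) (by simp [hal])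
  have ebbb := ebb (fun i => decide (i = b)) (by simp [hab])
  simp only [hbl, hbl.symm, decide_false, decide_true, Bool.false_eq_true, if_true, if_false]
    at elb0 elbl elbb ebb0 ebbl ebbb
  by_cases hB0 : B' b b = 0
  · exact Or.inl (hZ K m F a l b hal hab hbl.symm y' B' hB' hB0)
  refine Or.inr ?_
  have hCla : C' l a = 0 := by
    have : C' l a * B' b b * (F.τ F.θ - F.θ) = 0 := by linear_combination elb0 - elbl
    rcases mul_eq_zero.1 this with h | h
    · exact (mul_eq_zero.1 h).resolve_right hB0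
    · exact absurd h hne
  rw [hCla] at elb0 elbb
  have h1 : (C' l l - F.τ (C' l l)) * (F.θ * B' b b + B' l b) = 0 := by
    rw [map_zero] at elbb
    linear_combination elbb - elb0
  rcases mul_eq_zero.1 h1 with h2 | h2
  · exact Or.inl (hT K m F b a l hab.symm hbl hal x' C' hC' hCla
      (Or.inr (sub_eq_zero.1 h2).symm))
  refine Or.inr ?_
  have hBl : B l b = B' l b := by rw [elb0, h2]; ring
  have hBlne : B l b ≠ 0 := by
    intro h
    rw [← hBl, h, add_zero] at h2
    exact (mul_ne_zero F.θ_ne hB0) h2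
  have hDba : D b a = 0 := by
    have : D b a * B l b * (F.τ F.θ - F.θ) = 0 := by linear_combination ebb0 - ebbb
    rcases mul_eq_zero.1 this with h | h
    · exact (mul_eq_zero.1 h).resolve_right hBlne
    · exact absurd h hne
  rw [hDba] at ebb0 ebbl
  have h3 : (D b b - F.τ (D b b)) * (1 + B b b + F.θ * B l b) = 0 := by
    rw [map_zero] at ebbl
    linear_combination ebbl - ebb0
  rcases mul_eq_zero.1 h3 with h4 | h4
  · exact hT K m F l a b hal.symm hbl.symm hab x D hD hDba (Or.inr (sub_eq_zero.1 h4).symm)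
  exfalso
  apply hB0
  have hbb : B' b b = B b b := by linear_combination ebb0 + D b b * h4
  have hh := (y' (fun _ => false)).h1
  have hy0 : (y' (fun _ => false)).C = B' := by
    have := hB'.2.1 (fun _ => false)
    simpa [mat] using this
  rw [hy0] at hh
  have hh' := congrFun (congrFun hh b) b
  simp only [Matrix.add_apply, triple' _ _ _ hab hal hbl, FD.ct, Matrix.zero_apply, (hB'.1 b).2,
    map_zero, zero_mul, mul_zero, zero_add, A_self', one_mul,
    A_third' F _ hbl hab.symm hal.symm, A_third' F _ hbl.symm hal.symm hab.symm,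
    Bool.false_eq_true, if_false] at hh'
  have h5 : B' b b + F.θ * B' l b = -1 := by
    rw [← hbb, hBl] at h4
    linear_combination h4
  linear_combination hh' - F.st (B' b b) * h5 - F.st (B' l b) * h2

end Pool.Agent.Helper66.FL
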